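import Pool.Agent.TUR.FIN

/-!
# The Turan number of the generalised triangle with bounded matching number

For all `s ≥ 3` and `n ≥ 3 (s + 1)` the largest number of edges of a 3-graph on `n` vertices which
does not contain the generalised triangle `F5` and has matching number at most `s` is
`s ⌊(n - s)^2 / 4⌋`.

Plan of the proof (files `Pool/Agent/TUR`). Let `M` be a maximum matching, of size `t`, and `O` the
set of the `m = n - 3t` uncovered vertices. By induction one may assume a large minimum degree;
degree counts then exclude (in a dense range of `(t, m)`) a `K_4` in the link of a vertex and a Fano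
plane. So for `e ∈ M` the union of the links of the three vertices of `e` has no `K_4`, and Turan's
theorem bounds the number of edges inside the vertex set of `M`. The edges with one or two
vertices in `O` are bounded by exchange arguments; three edges between an uncovered vertex and two
members of `M` are paid for by the edges inside. In the remaining sparse range such pairs of
members of `M` force small link graphs in `O`.
-/

set_option autoImplicit false

namespace Pool.Agent.Results.MP_e17149_co.ExactTuranNumber

/-- The 3-graph `H` contains the generalised triangle: there are five distinct vertices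
`f 0, ..., f 4` such that `{f 0, f 1, f 2}`, `{f 0, f 1, f 3}` and `{f 2, f 3, f 4}` are edges. -/
def ContainsF5 {n : ℕ} (H : Finset (Finset (Fin n))) : Prop :=
  ∃ f : Fin 5 → Fin n, Function.Injective f ∧ ({f 0, f 1, f 2} : Finset (Fin n)) ∈ H ∧
    ({f 0, f 1, f 3} : Finset (Fin n)) ∈ H ∧ ({f 2, f 3, f 4} : Finset (Fin n)) ∈ H

/-- The 3-graph `H` contains `k` pairwise disjoint edges. -/
def ContainsMatching {n : ℕ} (k : ℕ) (H : Finset (Finset (Fin n))) : Prop :=
  ∃ M : Finset (Finset (Fin n)), M ⊆ H ∧ M.card = k ∧
    ∀ e ∈ M, ∀ f ∈ M, e ≠ f → Disjoint e f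

open Pool.Agent.TUR in
theorem result (s n : ℕ) (hs : 3 ≤ s) (hn : 3 * (s + 1) ≤ n) :
    IsGreatest
      {m : ℕ | ∃ H : Finset (Finset (Fin n)), (∀ e ∈ H, e.card = 3) ∧ ¬ ContainsF5 H ∧
        ¬ ContainsMatching (s + 1) H ∧ H.card = m}
      (s * ((n - s) ^ 2 / 4)) := by
  constructor
  · obtain ⟨H, h3, hF, hM, hc⟩ := lbd n s (by omega)
    refine ⟨H, h3, ?_, ?_, hc⟩
    · rintro ⟨f, hf, h1, h2, h4⟩
      have ne : ∀ i j : Fin 5, i ≠ j → f i ≠ f j := fun i j hij h => hij (hf h)
      exact hF (f 0) (f 1) (f 2) (f 3) (f 4) (ne _ _ (by decide)) (ne _ _ (by decide))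
        (ne _ _ (by decide)) (ne _ _ (by decide)) (ne _ _ (by decide)) (ne _ _ (by decide))
        (ne _ _ (by decide)) (ne _ _ (by decide)) (ne _ _ (by decide)) (ne _ _ (by decide))
        h1 h2 h4
    · rintro ⟨M, hMH, hMc, hd⟩
      have := hM M ⟨hMH, hd⟩
      omega
  · rintro m ⟨H, h3, hF, hM, rfl⟩
    apply fin_upper n s hs hn H h3
    · intro a b c d e n1 n2 n3 n4 n5 n6 n7 n8 n9 n10 h1 h2 h4
      apply hF
      refine ⟨![a, b, c, d, e], ?_, h1, h2, h4⟩
      intro i j hij
      fin_cases i <;> fin_cases j <;> simp_all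
    · intro M hMm
      by_contra hlt
      rw [not_le] at hlt
      obtain ⟨M', hM', hc⟩ := Finset.exists_subset_card_eq (show s + 1 ≤ M.card from hlt)
      exact hM ⟨M', hM'.trans hMm.1, hc, fun e he f hf hef => hMm.2 e (hM' he) f (hM' hf) hef⟩

end Pool.Agent.Results.MP_e17149_co.ExactTuranNumber
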